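import Pool.Agent.Helper14.LE.Stmts2

/-! # Module WREG: interior regularity of bounded weak solutions -/

open MeasureTheory Set Filter Topology InnerProductSpace Laplacian

noncomputable section

namespace LEP

section wcalc

variable {E : Type} [NormedAddCommGroup E] [InnerProductSpace ℝ E] [FiniteDimensional ℝ E]

/-- directional derivative -/
def wrD (v : E) (g : E → ℝ) (y : E) : ℝ := fderiv ℝ g y v

theorem wrD_contDiff (v : E) {g : E → ℝ} (hg : ContDiff ℝ (⊤ : ℕ∞) g) :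
    ContDiff ℝ (⊤ : ℕ∞) (wrD v g) := by
  have h1 : ContDiff ℝ (⊤ : ℕ∞) (fderiv ℝ g) := hg.fderiv_right (by simp)
  exact h1.clm_apply contDiff_const

theorem wr_lap {g : E → ℝ} (hg : ContDiff ℝ (⊤ : ℕ∞) g) (y : E) :
    (Δ g) y = ∑ i, wrD (stdOrthonormalBasis ℝ E i) (wrD (stdOrthonormalBasis ℝ E i) g) y := by
  rw [laplacian_eq_iteratedFDeriv_stdOrthonormalBasis]
  apply Finset.sum_congr rfl
  intro i _
  rw [iteratedFDeriv_two_apply]
  have h1 : ContDiff ℝ (⊤ : ℕ∞) (fderiv ℝ g) := hg.fderiv_right (by simp)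
  have h2 : DifferentiableAt ℝ (fderiv ℝ g) y := (h1.differentiable (by simp)) y
  unfold wrD
  have h3 := (h2.hasFDerivAt.clm_apply
    (hasFDerivAt_const (stdOrthonormalBasis ℝ E i) y)).fderiv
  rw [h3]
  simp

theorem wrD_mul (v : E) {g h : E → ℝ} {y : E} (hg : DifferentiableAt ℝ g y)
    (hh : DifferentiableAt ℝ h y) :
    wrD v (fun z => g z * h z) y = g y * wrD v h y + h y * wrD v g y := by
  unfold wrD
  have : fderiv ℝ (fun z => g z * h z) y = g y • fderiv ℝ h y + h y • fderiv ℝ g y :=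
    (hg.hasFDerivAt.mul hh.hasFDerivAt).fderiv
  rw [this]
  simp

theorem wrD_sub (v x : E) {h : E → ℝ} {y : E} (hh : DifferentiableAt ℝ h (x - y)) :
    wrD v (fun z => h (x - z)) y = - wrD v h (x - y) := by
  unfold wrD
  have h1 : HasFDerivAt (fun z : E => x - z) (-(ContinuousLinearMap.id ℝ E)) y := by
    simpa using (hasFDerivAt_id y).const_sub x
  have := (hh.hasFDerivAt.comp y h1).fderiv
  have h2 : (h ∘ fun z => x - z) = fun z => h (x - z) := rfl
  rw [h2] at this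
  rw [this]
  simp

theorem wr_diff {g : E → ℝ} (hg : ContDiff ℝ (⊤ : ℕ∞) g) (y : E) : DifferentiableAt ℝ g y :=
  (hg.differentiable (by simp)) y

/-- Laplacian of the test function -/
theorem wr_lap_test {φ h : E → ℝ} (hφ : ContDiff ℝ (⊤ : ℕ∞) φ) (hh : ContDiff ℝ (⊤ : ℕ∞) h)
    (x y : E) :
    (Δ (fun z => φ z * h (x - z))) y = φ y * (Δ h) (x - y) -
      2 * ∑ i, wrD (stdOrthonormalBasis ℝ E i) φ y * wrD (stdOrthonormalBasis ℝ E i) h (x - y) +
      (Δ φ) y * h (x - y) := by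
  have hsub : ContDiff ℝ (⊤ : ℕ∞) (fun z : E => x - z) := contDiff_const.sub contDiff_id
  have hhs : ContDiff ℝ (⊤ : ℕ∞) (fun z => h (x - z)) := hh.comp hsub
  rw [wr_lap (hφ.mul hhs), wr_lap hh, wr_lap hφ, Finset.mul_sum, Finset.mul_sum, Finset.sum_mul,
    ← Finset.sum_sub_distrib, ← Finset.sum_add_distrib]
  apply Finset.sum_congr rfl
  intro i _
  generalize (stdOrthonormalBasis ℝ E) i = v
  have e1 : wrD v (fun z => φ z * h (x - z)) =
      fun z => φ z * (-(wrD v h (x - z))) + h (x - z) * wrD v φ z := by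
    funext z
    rw [wrD_mul v (wr_diff hφ z) (wr_diff hhs z), wrD_sub v x (wr_diff hh _)]
  rw [e1]
  have d1 : DifferentiableAt ℝ (fun z => φ z * (-(wrD v h (x - z)))) y :=
    wr_diff (hφ.mul ((wrD_contDiff v hh).comp hsub).neg) y
  have d2 : DifferentiableAt ℝ (fun z => h (x - z) * wrD v φ z) y :=
    wr_diff (hhs.mul (wrD_contDiff v hφ)) y
  have e2 : wrD v (fun z => φ z * (-(wrD v h (x - z))) + h (x - z) * wrD v φ z) y =
      wrD v (fun z => φ z * (-(wrD v h (x - z)))) y + wrD v (fun z => h (x - z) * wrD v φ z) y := by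
    unfold wrD at d1 d2 ⊢
    have := (d1.hasFDerivAt.add d2.hasFDerivAt).fderiv
    exact congrArg (fun L => L v) this
  have d3 : DifferentiableAt ℝ (fun z => -(wrD v h (x - z))) y :=
    wr_diff ((wrD_contDiff v hh).comp hsub).neg y
  rw [e2, wrD_mul v (wr_diff hφ y) d3,
    wrD_mul v (wr_diff hhs y) (wr_diff (wrD_contDiff v hφ) y), wrD_sub v x (wr_diff hh _)]
  have e3 : wrD v (fun z => -(wrD v h (x - z))) y = wrD v (wrD v h) (x - y) := by
    have h4 : wrD v (fun z => -(wrD v h (x - z))) y = -(wrD v (fun z => wrD v h (x - z)) y) := by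
      have hd : DifferentiableAt ℝ (fun z => wrD v h (x - z)) y :=
        wr_diff ((wrD_contDiff v hh).comp hsub) y
      have := hd.hasFDerivAt.neg.fderiv
      exact congrArg (fun L => L v) this
    rw [h4, wrD_sub v x (wr_diff (wrD_contDiff v hh) _), neg_neg]
  rw [e3]
  ring

end wcalc

section wlim

variable {E : Type} [NormedAddCommGroup E] [InnerProductSpace ℝ E] [FiniteDimensional ℝ E]
  [MeasurableSpace E] [BorelSpace E]

theorem wr_swap (w G : E → ℝ) (x : E) :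
    ∫ y, w y * G (x - y) = ∫ z, w (x - z) * G z := by
  have := integral_sub_left_eq_self (fun z => w (x - z) * G z) (volume : Measure E) x
  rw [← this]
  simp

theorem wr_supp {w : E → ℝ} (hw : HasCompactSupport w) : ∃ R : ℝ, ∀ y, w y ≠ 0 → ‖y‖ ≤ R := by
  obtain ⟨R, hR⟩ := hw.isBounded.exists_norm_le
  exact ⟨R, fun y hy => hR y (subset_tsupport w hy)⟩

theorem wr_integrable {w G : E → ℝ} {B : ℝ} (hwm : Measurable w) (hB : ∀ y, |w y| ≤ B)
    (hw : HasCompactSupport w) (hG : LocallyIntegrable G volume) (x : E) :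
    Integrable (fun z => w (x - z) * G z) := by
  obtain ⟨R, hR⟩ := wr_supp hw
  have hsup : Function.support (fun z => w (x - z) * G z) ⊆ Metric.closedBall 0 (R + ‖x‖) := by
    intro z hz
    have h1 : w (x - z) ≠ 0 := fun h => hz (by simp [h])
    have h2 := hR _ h1
    rw [mem_closedBall_zero_iff]
    have h3 : z = x - (x - z) := by abel
    rw [h3]
    exact (norm_sub_le _ _).trans (by linarith)
  rw [← integrableOn_iff_integrable_of_support_subset hsup]
  have h4 : IntegrableOn G (Metric.closedBall 0 (R + ‖x‖)) volume :=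
    hG.integrableOn_isCompact (isCompact_closedBall _ _)
  apply Integrable.bdd_mul (c := B) h4
  · exact (hwm.comp (measurable_const.sub measurable_id)).aestronglyMeasurable
  · exact Eventually.of_forall fun z => hB _

theorem wr_lim {w G : E → ℝ} {Gn : ℕ → E → ℝ} {B : ℝ} (hwm : Measurable w)
    (hB : ∀ y, |w y| ≤ B) (hw : HasCompactSupport w) (hG : LocallyIntegrable G volume)
    (hGn : ∀ n, LocallyIntegrable (Gn n) volume)
    (hlim : ∀ R : ℝ, Tendsto (fun n => ∫ z in Metric.ball (0 : E) R, |Gn n z - G z|) atTop (𝓝 0))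
    (x : E) :
    Tendsto (fun n => ∫ y, w y * Gn n (x - y)) atTop (𝓝 (∫ y, w y * G (x - y))) := by
  obtain ⟨R, hR⟩ := wr_supp hw
  have hB0 : 0 ≤ B := (abs_nonneg _).trans (hB 0)
  rw [← tendsto_sub_nhds_zero_iff]
  have h1 : Tendsto (fun n => B * ∫ z in Metric.ball (0 : E) (R + ‖x‖ + 1), |Gn n z - G z|)
      atTop (𝓝 0) := by
    simpa using (hlim (R + ‖x‖ + 1)).const_mul B
  refine squeeze_zero_norm (fun n => ?_) h1
  rw [wr_swap, wr_swap, ← integral_sub (wr_integrable hwm hB hw (hGn n) x)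
    (wr_integrable hwm hB hw hG x)]
  have h2 : ∀ z, z ∉ Metric.ball (0 : E) (R + ‖x‖ + 1) →
      w (x - z) * Gn n z - w (x - z) * G z = 0 := by
    intro z hz
    have h3 : w (x - z) = 0 := by
      by_contra h
      apply hz
      have h4 := hR _ h
      rw [mem_ball_zero_iff]
      have h5 : z = x - (x - z) := by abel
      rw [h5]
      exact lt_of_le_of_lt (norm_sub_le _ _) (by linarith)
    rw [h3]; ring
  rw [← setIntegral_eq_integral_of_forall_compl_eq_zero h2, ← integral_const_mul]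
  apply norm_integral_le_of_norm_le
  · apply Integrable.const_mul
    apply Integrable.abs
    exact (((hGn n).sub hG).integrableOn_isCompact (isCompact_closedBall (0 : E) (R + ‖x‖ + 1))).mono_set
      Metric.ball_subset_closedBall
  · refine Eventually.of_forall fun z => ?_
    rw [← mul_sub, norm_mul]
    exact mul_le_mul_of_nonneg_right (hB _) (norm_nonneg _)

theorem wr_integrable' {w G : E → ℝ} {B : ℝ} (hwm : Measurable w) (hB : ∀ y, |w y| ≤ B)
    (hw : HasCompactSupport w) (hG : LocallyIntegrable G volume) (x : E) :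
    Integrable (fun y => w y * G (x - y)) := by
  have h := (wr_integrable hwm hB hw hG x).comp_sub_left x
  have e : (fun t => w (x - (x - t)) * G (x - t)) = fun y => w y * G (x - y) := by
    funext t
    rw [sub_sub_cancel]
  rw [← e]
  exact h

theorem wr_locD {K : E → ℝ} (hK : LocallyIntegrable (fderiv ℝ K) volume) (v : E) :
    LocallyIntegrable (wrD v K) volume := by
  intro x
  obtain ⟨s, hs, hi⟩ := hK x
  refine ⟨s, hs, ?_⟩
  have h := (ContinuousLinearMap.apply ℝ ℝ v).integrable_comp hi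
  exact h

theorem wr_limD {K : E → ℝ} {Kn : ℕ → E → ℝ} {c : ℝ} (Fd : Fund K Kn c) (v : E) (hv : ‖v‖ = 1)
    (R : ℝ) : Tendsto (fun n => ∫ z in Metric.ball (0 : E) R, |wrD v (Kn n) z - wrD v K z|)
      atTop (𝓝 0) := by
  refine squeeze_zero (fun n => integral_nonneg fun z => abs_nonneg _) (fun n => ?_) (Fd.limJ R)
  have hc : LocallyIntegrable (fderiv ℝ (Kn n)) volume := by
    have : Continuous (fderiv ℝ (Kn n)) := (Fd.smooth n).continuous_fderiv (by simp)
    exact this.locallyIntegrable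
  have hi : LocallyIntegrable (fun z => fderiv ℝ (Kn n) z - fderiv ℝ K z) volume := hc.sub Fd.locJ
  have hb : IntegrableOn (fun z => fderiv ℝ (Kn n) z - fderiv ℝ K z) (Metric.ball (0 : E) R) volume :=
    (hi.integrableOn_isCompact (isCompact_closedBall (0 : E) R)).mono_set
      Metric.ball_subset_closedBall
  apply integral_mono_of_nonneg
  · exact Eventually.of_forall fun z => abs_nonneg _
  · exact hb.norm
  · refine Eventually.of_forall fun z => ?_
    change |fderiv ℝ (Kn n) z v - fderiv ℝ K z v| ≤ _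
    have h1 := (fderiv ℝ (Kn n) z - fderiv ℝ K z).le_opNorm v
    rw [hv, mul_one] at h1
    exact h1

theorem wr_lapl_supp {φ : E → ℝ} (hφc : HasCompactSupport φ) : HasCompactSupport (Δ φ) := by
  apply HasCompactSupport.intro hφc
  intro y hy
  have h1 : φ =ᶠ[𝓝 y] fun _ => (0 : ℝ) := notMem_tsupport_iff_eventuallyEq.mp hy
  have h2 := (laplacian_congr_nhds h1).eq_of_nhds
  rw [h2]
  simp

theorem wr_lapl_cont {φ : E → ℝ} (hφ : ContDiff ℝ (⊤ : ℕ∞) φ) : ContDiff ℝ (⊤ : ℕ∞) (Δ φ) := by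
  have e : Δ φ = fun y => ∑ i, wrD (stdOrthonormalBasis ℝ E i)
      (wrD (stdOrthonormalBasis ℝ E i) φ) y := by
    funext y
    exact wr_lap hφ y
  rw [e]
  exact ContDiff.sum fun i _ => wrD_contDiff _ (wrD_contDiff _ hφ)

theorem wr_bound {u φ : E → ℝ} {M : ℝ} (hu : ∀ x, |u x| ≤ M) (hφ : Continuous φ)
    (hφc : HasCompactSupport φ) : ∃ B, ∀ x, |u x * φ x| ≤ B := by
  obtain ⟨C, hC⟩ := hφc.exists_bound_of_continuous hφ
  refine ⟨M * C, fun x => ?_⟩
  rw [abs_mul]
  have hC' : |φ x| ≤ C := hC x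
  exact mul_le_mul (hu x) hC' (abs_nonneg _) ((abs_nonneg _).trans (hu x))

/-- the representation formula at continuity points -/
theorem wr_rep {K : E → ℝ} {Kn : ℕ → E → ℝ} {c : ℝ} (Fd : Fund K Kn c) {Ω : Set E}
    {u f : E → ℝ} {M : ℝ} (hum : Measurable u) (hfm : Measurable f) (hu : ∀ x, |u x| ≤ M)
    (hf : ∀ x, |f x| ≤ M)
    (hw : ∀ φ : E → ℝ, ContDiff ℝ (⊤ : ℕ∞) φ → HasCompactSupport φ → tsupport φ ⊆ Ω →
      ∫ x, u x * (Δ φ) x = - ∫ x, f x * φ x)
    {φ : E → ℝ} (hφ : ContDiff ℝ (⊤ : ℕ∞) φ) (hφc : HasCompactSupport φ) (hφs : tsupport φ ⊆ Ω)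
    {x : E} (hx : ContinuousAt u x) :
    c * (u x * φ x) - 2 * (∑ i, ∫ y, (u y * wrD (stdOrthonormalBasis ℝ E i) φ y) *
        wrD (stdOrthonormalBasis ℝ E i) K (x - y)) +
      ∫ y, (u y * (Δ φ) y) * K (x - y) = - ∫ y, (f y * φ y) * K (x - y) := by
  have hKn : ∀ n, LocallyIntegrable (Kn n) volume := fun n =>
    (Fd.smooth n).continuous.locallyIntegrable
  have hDKn : ∀ n v, LocallyIntegrable (wrD v (Kn n)) volume := fun n v =>
    (wrD_contDiff v (Fd.smooth n)).continuous.locallyIntegrable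
  have hLKn : ∀ n, LocallyIntegrable (Δ (Kn n)) volume := fun n =>
    (wr_lapl_cont (Fd.smooth n)).continuous.locallyIntegrable
  obtain ⟨B1, hB1⟩ := wr_bound hu hφ.continuous hφc
  obtain ⟨B2, hB2⟩ := wr_bound hf hφ.continuous hφc
  obtain ⟨B3, hB3⟩ := wr_bound hu (wr_lapl_cont hφ).continuous (wr_lapl_supp hφc)
  have hDc : ∀ v, HasCompactSupport (wrD v φ) := fun v => hφc.fderiv_apply ℝ v
  have hB4 : ∀ v, ∃ B, ∀ x, |u x * wrD v φ x| ≤ B := fun v =>
    wr_bound hu (wrD_contDiff v hφ).continuous (hDc v)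
  choose B4 hB4 using hB4
  have m1 : Measurable (fun y => u y * φ y) := hum.mul hφ.continuous.measurable
  have m2 : Measurable (fun y => f y * φ y) := hfm.mul hφ.continuous.measurable
  have m3 : Measurable (fun y => u y * (Δ φ) y) := hum.mul (wr_lapl_cont hφ).continuous.measurable
  have m4 : ∀ v, Measurable (fun y => u y * wrD v φ y) := fun v =>
    hum.mul (wrD_contDiff v hφ).continuous.measurable
  have c1 : HasCompactSupport (fun y => u y * φ y) := hφc.mul_left
  have c2 : HasCompactSupport (fun y => f y * φ y) := hφc.mul_left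
  have c3 : HasCompactSupport (fun y => u y * (Δ φ) y) := (wr_lapl_supp hφc).mul_left
  have c4 : ∀ v, HasCompactSupport (fun y => u y * wrD v φ y) := fun v => (hDc v).mul_left
  -- the equation for `Kn`
  have heq : ∀ n, (∫ y, (u y * φ y) * (Δ (Kn n)) (x - y)) -
      2 * (∑ i, ∫ y, (u y * wrD (stdOrthonormalBasis ℝ E i) φ y) *
        wrD (stdOrthonormalBasis ℝ E i) (Kn n) (x - y)) +
      ∫ y, (u y * (Δ φ) y) * Kn n (x - y) = - ∫ y, (f y * φ y) * Kn n (x - y) := by
    intro n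
    have h1 := hw (fun y => φ y * Kn n (x - y))
      (hφ.mul ((Fd.smooth n).comp (contDiff_const.sub contDiff_id))) hφc.mul_right
      ((tsupport_mul_subset_left).trans hφs)
    have e1 : (fun y => u y * (Δ (fun z => φ z * Kn n (x - z))) y) = fun y =>
        ((u y * φ y) * (Δ (Kn n)) (x - y) - 2 * ∑ i, (u y * wrD (stdOrthonormalBasis ℝ E i) φ y) *
        wrD (stdOrthonormalBasis ℝ E i) (Kn n) (x - y)) + (u y * (Δ φ) y) * Kn n (x - y) := by
      funext y
      rw [wr_lap_test hφ (Fd.smooth n)]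
      have e2 : ∑ i, u y * wrD (stdOrthonormalBasis ℝ E i) φ y *
          wrD (stdOrthonormalBasis ℝ E i) (Kn n) (x - y) = u y * ∑ i,
            wrD (stdOrthonormalBasis ℝ E i) φ y *
              wrD (stdOrthonormalBasis ℝ E i) (Kn n) (x - y) := by
        rw [Finset.mul_sum]
        exact Finset.sum_congr rfl fun i _ => by ring
      rw [e2]
      ring
    rw [e1] at h1
    have i1 := wr_integrable' m1 hB1 c1 (hLKn n) x
    have i3 := wr_integrable' m3 hB3 c3 (hKn n) x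
    have i4 : ∀ v, Integrable (fun y => (u y * wrD v φ y) * wrD v (Kn n) (x - y)) := fun v =>
      wr_integrable' (m4 v) (hB4 v) (c4 v) (hDKn n v) x
    have i5 : Integrable (fun y => ∑ i, (u y * wrD (stdOrthonormalBasis ℝ E i) φ y) *
        wrD (stdOrthonormalBasis ℝ E i) (Kn n) (x - y)) :=
      integrable_finsetSum _ fun i _ => i4 _
    have i6 : Integrable (fun y => (u y * φ y) * (Δ (Kn n)) (x - y) -
        2 * ∑ i, (u y * wrD (stdOrthonormalBasis ℝ E i) φ y) *
        wrD (stdOrthonormalBasis ℝ E i) (Kn n) (x - y)) := i1.sub (i5.const_mul 2)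
    rw [integral_add i6 i3, integral_sub i1 (i5.const_mul 2),
      integral_const_mul, integral_finsetSum _ (fun i _ => i4 _)] at h1
    rw [h1]
    congr 1
    apply integral_congr_ae
    exact Eventually.of_forall fun y => by ring
  -- limits
  have l1 : Tendsto (fun n => ∫ y, (u y * φ y) * (Δ (Kn n)) (x - y)) atTop
      (𝓝 (c * (u x * φ x))) := by
    have h1 := Fd.delta (fun z => u (x - z) * φ (x - z)) B1
      (m1.comp (measurable_const.sub measurable_id)) (fun z => hB1 _)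
      (c1.comp_homeomorph (Homeomorph.subLeft x)) (by
        have h2 : ContinuousAt (fun y => u y * φ y) (x - 0) := by
          rw [sub_zero]
          exact hx.mul hφ.continuous.continuousAt
        exact h2.comp (f := fun z : E => x - z) (by fun_prop))
    have e : (fun n => ∫ y, (u y * φ y) * (Δ (Kn n)) (x - y)) =
      fun n => ∫ z, (u (x - z) * φ (x - z)) * (Δ (Kn n)) z := by
      funext n
      exact wr_swap (fun y => u y * φ y) (Δ (Kn n)) x
    rw [e]
    simpa using h1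
  have l2 : ∀ i, Tendsto (fun n => ∫ y, (u y * wrD (stdOrthonormalBasis ℝ E i) φ y) *
        wrD (stdOrthonormalBasis ℝ E i) (Kn n) (x - y)) atTop
      (𝓝 (∫ y, (u y * wrD (stdOrthonormalBasis ℝ E i) φ y) *
        wrD (stdOrthonormalBasis ℝ E i) K (x - y))) := fun i =>
    wr_lim (m4 _) (hB4 _) (c4 _) (wr_locD Fd.locJ _) (fun n => hDKn n _)
      (wr_limD Fd _ ((stdOrthonormalBasis ℝ E).orthonormal.1 i)) x
  have l3 := wr_lim m3 hB3 c3 Fd.locK hKn Fd.lim x
  have l4 := wr_lim m2 hB2 c2 Fd.locK hKn Fd.lim x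
  have l5 := (l1.sub ((tendsto_finsetSum Finset.univ fun i _ => l2 i).const_mul 2)).add l3
  have l6 : Tendsto (fun n => - ∫ y, (f y * φ y) * Kn n (x - y)) atTop
      (𝓝 (- ∫ y, (f y * φ y) * K (x - y))) := l4.neg
  have l7 := l5.congr heq
  exact tendsto_nhds_unique l7 l6

theorem wr_conv {w G : E → ℝ} {B : ℝ} (hwm : Measurable w) (hB : ∀ y, |w y| ≤ B)
    (hw : HasCompactSupport w) (hG : ContDiff ℝ (⊤ : ℕ∞) G) (hGc : HasCompactSupport G) :
    ContDiff ℝ (⊤ : ℕ∞) (fun x => ∫ y, w y * G (x - y)) := by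
  have hwi : LocallyIntegrable w volume := by
    have h1 := wr_integrable' (G := fun _ : E => (1 : ℝ)) hwm hB hw
      continuous_const.locallyIntegrable 0
    simp only [mul_one] at h1
    exact h1.locallyIntegrable
  have h := hGc.contDiff_convolution_right (n := (⊤ : ℕ∞)) (ContinuousLinearMap.mul ℝ ℝ) hwi hG
    (μ := (volume : Measure E))
  exact h

/-- the cut-off in the difference variable -/
theorem wr_chi (r : ℝ) (hr : 0 < r) : ∃ χ : E → ℝ, ContDiff ℝ (⊤ : ℕ∞) χ ∧ HasCompactSupport χ ∧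
    (∀ᶠ z in 𝓝 (0 : E), χ z = 0) ∧ ∀ z, r ≤ ‖z‖ → ‖z‖ ≤ 4 * r → χ z = 1 := by
  let χ1 : ContDiffBump (0 : E) := ⟨4 * r, 5 * r, by positivity, by linarith⟩
  let χ2 : ContDiffBump (0 : E) := ⟨r / 2, r, by positivity, by linarith⟩
  refine ⟨fun z => χ1 z * (1 - χ2 z), ?_, ?_, ?_, ?_⟩
  · exact χ1.contDiff.mul (contDiff_const.sub χ2.contDiff)
  · exact χ1.hasCompactSupport.mul_right
  · filter_upwards [Metric.ball_mem_nhds (0 : E) (half_pos hr)] with z hz
    rw [χ2.one_of_mem_closedBall (Metric.ball_subset_closedBall hz), sub_self, mul_zero]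
  · intro z h1 h2
    change χ1 z * (1 - χ2 z) = 1
    rw [χ1.one_of_mem_closedBall (mem_closedBall_zero_iff.mpr h2),
      χ2.zero_of_le_dist (by rw [dist_zero_right]; exact h1)]
    ring

theorem wr_chi_mul {χ g : E → ℝ} (hχ : ContDiff ℝ (⊤ : ℕ∞) χ) (h0 : ∀ᶠ z in 𝓝 (0 : E), χ z = 0)
    (hg : ∀ z, z ≠ 0 → ContDiffAt ℝ (⊤ : ℕ∞) g z) : ContDiff ℝ (⊤ : ℕ∞) (fun z => χ z * g z) := by
  rw [contDiff_iff_contDiffAt]
  intro z
  by_cases hz : z = 0
  · subst hz
    have h1 : (fun z => χ z * g z) =ᶠ[𝓝 0] fun _ => (0 : ℝ) := by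
      filter_upwards [h0] with z hz
      rw [hz, zero_mul]
    exact contDiffAt_const.congr_of_eventuallyEq h1
  · exact hχ.contDiffAt.mul (hg z hz)

theorem wr_phi (x0 : E) (r : ℝ) (hr : 0 < r) : ∃ φ : E → ℝ, ContDiff ℝ (⊤ : ℕ∞) φ ∧
    HasCompactSupport φ ∧ tsupport φ = Metric.closedBall x0 (3 * r) ∧
    ∀ y, dist y x0 < 2 * r → φ =ᶠ[𝓝 y] (fun _ => (1 : ℝ)) := by
  let φ : ContDiffBump x0 := ⟨2 * r, 3 * r, by positivity, by linarith⟩
  exact ⟨φ, φ.contDiff, φ.hasCompactSupport, φ.tsupport_eq, fun y hy =>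
    φ.eventuallyEq_one_of_mem_ball (Metric.mem_ball.mpr hy)⟩

/-- local regularity -/
theorem wr_local (hPOT : ST_POT) {K : E → ℝ} {Kn : ℕ → E → ℝ} {c : ℝ} (Fd : Fund K Kn c)
    {Ω : Set E} (hΩ : IsOpen Ω)
    {u f : E → ℝ} {M : ℝ} (hum : Measurable u) (hfm : Measurable f) (hu : ∀ x, |u x| ≤ M)
    (hf : ∀ x, |f x| ≤ M)
    (hw : ∀ φ : E → ℝ, ContDiff ℝ (⊤ : ℕ∞) φ → HasCompactSupport φ → tsupport φ ⊆ Ω →
      ∫ x, u x * (Δ φ) x = - ∫ x, f x * φ x) {x0 : E} (hx0 : x0 ∈ Ω) :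
    ∃ r : ℝ, 0 < r ∧ Metric.ball x0 r ⊆ Ω ∧ ∃ V : E → ℝ, ContDiff ℝ 1 V ∧
      (∀ x ∈ Metric.ball x0 r, ContinuousAt u x → V x = u x) ∧
      (ContDiffOn ℝ 1 f Ω → ContDiff ℝ 2 V) := by
  obtain ⟨ε, hε, hball⟩ := Metric.isOpen_iff.mp hΩ x0 hx0
  obtain ⟨r, hrε⟩ : ∃ r : ℝ, r = ε / 4 := ⟨_, rfl⟩
  have hr : 0 < r := by rw [hrε]; positivity
  obtain ⟨φ, hφ, hφc, hts, hφ1⟩ := wr_phi x0 r hr
  obtain ⟨χ, hχ, hχc, hχ0, hχ1⟩ := wr_chi (E := E) r hr
  have hφs : tsupport φ ⊆ Ω := by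
    rw [hts]
    exact (Metric.closedBall_subset_ball (by rw [hrε]; linarith)).trans hball
  have hKat : ∀ z, z ≠ 0 → ContDiffAt ℝ (⊤ : ℕ∞) K z := fun z hz =>
    Fd.smooth0.contDiffAt (isOpen_compl_singleton.mem_nhds hz)
  have hDKat : ∀ v z, z ≠ 0 → ContDiffAt ℝ (⊤ : ℕ∞) (wrD v K) z := fun v z hz =>
    ((hKat z hz).fderiv_right (by simp)).clm_apply contDiffAt_const
  -- bounds
  obtain ⟨B2, hB2⟩ := wr_bound hf hφ.continuous hφc
  obtain ⟨B3, hB3⟩ := wr_bound hu (wr_lapl_cont hφ).continuous (wr_lapl_supp hφc)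
  have hDc : ∀ v, HasCompactSupport (wrD v φ) := fun v => hφc.fderiv_apply ℝ v
  have hB4 : ∀ v, ∃ B, ∀ x, |u x * wrD v φ x| ≤ B := fun v =>
    wr_bound hu (wrD_contDiff v hφ).continuous (hDc v)
  choose B4 hB4 using hB4
  have m2 : Measurable (fun y => f y * φ y) := hfm.mul hφ.continuous.measurable
  have m3 : Measurable (fun y => u y * (Δ φ) y) := hum.mul (wr_lapl_cont hφ).continuous.measurable
  have m4 : ∀ v, Measurable (fun y => u y * wrD v φ y) := fun v =>
    hum.mul (wrD_contDiff v hφ).continuous.measurable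
  have c2 : HasCompactSupport (fun y => f y * φ y) := hφc.mul_left
  have c3 : HasCompactSupport (fun y => u y * (Δ φ) y) := (wr_lapl_supp hφc).mul_left
  have c4 : ∀ v, HasCompactSupport (fun y => u y * wrD v φ y) := fun v => (hDc v).mul_left
  obtain ⟨G3, eG3⟩ : ∃ G3 : E → ℝ, G3 = fun z => χ z * K z := ⟨_, rfl⟩
  obtain ⟨G4, eG4⟩ : ∃ G4 : E → E → ℝ, ∀ v, G4 v = fun z => χ z * wrD v K z :=
    ⟨fun v z => χ z * wrD v K z, fun v => rfl⟩
  have hG3 : ContDiff ℝ (⊤ : ℕ∞) G3 := by rw [eG3]; exact wr_chi_mul hχ hχ0 hKat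
  have hG4 : ∀ v, ContDiff ℝ (⊤ : ℕ∞) (G4 v) := fun v => by
    rw [eG4]; exact wr_chi_mul hχ hχ0 (hDKat v)
  have hG3c : HasCompactSupport G3 := by rw [eG3]; exact hχc.mul_right
  have hG4c : ∀ v, HasCompactSupport (G4 v) := fun v => by rw [eG4]; exact hχc.mul_right
  obtain ⟨S, eS⟩ : ∃ S : E → ℝ, S = fun x =>
      2 * (∑ i, ∫ y, (u y * wrD (stdOrthonormalBasis ℝ E i) φ y) *
        G4 (stdOrthonormalBasis ℝ E i) (x - y)) - ∫ y, (u y * (Δ φ) y) * G3 (x - y) := ⟨_, rfl⟩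
  have hS : ContDiff ℝ (⊤ : ℕ∞) S := by
    rw [eS]
    apply ContDiff.sub
    · apply contDiff_const.mul
      exact ContDiff.sum fun i _ => wr_conv (m4 _) (hB4 _) (c4 _) (hG4 _) (hG4c _)
    · exact wr_conv m3 hB3 c3 hG3 hG3c
  obtain ⟨T, eT⟩ : ∃ T : E → ℝ, T = fun x => ∫ y, K (x - y) * (f y * φ y) := ⟨_, rfl⟩
  obtain ⟨hT1, hT2⟩ := hPOT E K Kn c Fd (fun y => f y * φ y) B2 m2 hB2 c2
  rw [← eT] at hT1 hT2
  refine ⟨r, hr, (Metric.ball_subset_ball (by rw [hrε]; linarith)).trans hball,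
    fun x => c⁻¹ * (S x - T x), ?_, ?_, ?_⟩
  · exact contDiff_const.mul ((hS.of_le (by norm_cast)).sub hT1)
  · intro x hx hcx
    have hrep := wr_rep Fd hum hfm hu hf hw hφ hφc hφs hcx
    have hφx : φ x = 1 := by
      rw [Metric.mem_ball] at hx
      exact (hφ1 x (by linarith)).eq_of_nhds
    -- outside the transition region the derivatives vanish
    have hloc : ∀ y, ¬ (r ≤ ‖x - y‖ ∧ ‖x - y‖ ≤ 4 * r) →
        φ =ᶠ[𝓝 y] (fun _ => (1 : ℝ)) ∨ φ =ᶠ[𝓝 y] (fun _ => (0 : ℝ)) := by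
      intro y hy
      rw [Metric.mem_ball] at hx
      by_cases h1 : dist y x0 < 2 * r
      · left
        exact hφ1 y h1
      · right
        apply notMem_tsupport_iff_eventuallyEq.mp
        rw [hts, Metric.mem_closedBall]
        intro h2
        apply hy
        rw [← dist_eq_norm]
        have h3 := dist_triangle y x x0
        have h4 := dist_triangle x x0 y
        rw [dist_comm x0 y] at h4
        rw [dist_comm y x] at h3
        constructor <;> linarith [not_lt.mp h1]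
    have hD0 : ∀ v y, ¬ (r ≤ ‖x - y‖ ∧ ‖x - y‖ ≤ 4 * r) → wrD v φ y = 0 := by
      intro v y hy
      unfold wrD
      rcases hloc y hy with h | h
      · rw [h.fderiv_eq]; simp
      · rw [h.fderiv_eq]; simp
    have hL0 : ∀ y, ¬ (r ≤ ‖x - y‖ ∧ ‖x - y‖ ≤ 4 * r) → (Δ φ) y = 0 := by
      intro y hy
      rcases hloc y hy with h | h
      · rw [(laplacian_congr_nhds h).eq_of_nhds]; simp
      · rw [(laplacian_congr_nhds h).eq_of_nhds]; simp
    have e4 : ∀ v, (fun y => (u y * wrD v φ y) * G4 v (x - y)) =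
        fun y => (u y * wrD v φ y) * wrD v K (x - y) := by
      intro v
      funext y
      by_cases hy : r ≤ ‖x - y‖ ∧ ‖x - y‖ ≤ 4 * r
      · rw [eG4]
        dsimp only
        rw [hχ1 _ hy.1 hy.2, one_mul]
      · rw [hD0 v y hy]; ring
    have e3 : (fun y => (u y * (Δ φ) y) * G3 (x - y)) =
        fun y => (u y * (Δ φ) y) * K (x - y) := by
      funext y
      by_cases hy : r ≤ ‖x - y‖ ∧ ‖x - y‖ ≤ 4 * r
      · rw [eG3]
        dsimp only
        rw [hχ1 _ hy.1 hy.2, one_mul]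
      · rw [hL0 y hy]; ring
    have e2 : T x = ∫ y, (f y * φ y) * K (x - y) := by
      rw [eT]
      apply integral_congr_ae
      exact Eventually.of_forall fun y => mul_comm _ _
    have hSx : S x = 2 * (∑ i, ∫ y, (u y * wrD (stdOrthonormalBasis ℝ E i) φ y) *
        wrD (stdOrthonormalBasis ℝ E i) K (x - y)) - ∫ y, (u y * (Δ φ) y) * K (x - y) := by
      rw [eS]
      dsimp only
      rw [e3]
      congr 2
      apply Finset.sum_congr rfl
      intro i _
      rw [e4]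
    rw [hφx, mul_one] at hrep
    change c⁻¹ * (S x - T x) = u x
    rw [hSx, e2, inv_mul_eq_iff_eq_mul₀ Fd.c0]
    linarith
  · intro hf1
    have h1 : ContDiff ℝ 1 (fun y => f y * φ y) := by
      rw [contDiff_iff_contDiffAt]
      intro y
      by_cases hy : y ∈ Ω
      · exact (hf1.contDiffAt (hΩ.mem_nhds hy)).mul ((hφ.of_le (by norm_cast)).contDiffAt)
      · have h2 : φ =ᶠ[𝓝 y] (fun _ => (0 : ℝ)) :=
          notMem_tsupport_iff_eventuallyEq.mp fun h => hy (hφs h)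
        have h3 : (fun y => f y * φ y) =ᶠ[𝓝 y] fun _ => (0 : ℝ) := by
          filter_upwards [h2] with z hz
          rw [hz, mul_zero]
        exact contDiffAt_const.congr_of_eventuallyEq h3
    exact contDiff_const.mul ((hS.of_le (by norm_cast)).sub (hT2 h1))

end wlim

/-- **WREG** -/
theorem st_WREG (hPOT : ST_POT) : ST_WREG := by
  intro E _ _ _ _ _ K Kn c Fd Ω u f M hΩ hum hfm hu hf hcl hw
  classical
  have hloc := fun (x0 : E) (hx0 : x0 ∈ Ω) => wr_local hPOT Fd hΩ hum hfm hu hf hw hx0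
  choose r hr hball V hV1 hVu hV2 using hloc
  -- local solutions agree
  have hagree : ∀ (x0 : E) (h0 : x0 ∈ Ω) (x : E) (hx : x ∈ Ω), x ∈ Metric.ball x0 (r x0 h0) →
      V x hx x = V x0 h0 x := by
    intro x0 h0 x hx hxb
    by_contra hne
    have hc : ContinuousAt (fun y => V x hx y - V x0 h0 y) x :=
      ((hV1 x hx).continuous.sub (hV1 x0 h0).continuous).continuousAt
    have h1 : ∀ᶠ y in 𝓝 x, V x hx y - V x0 h0 y ≠ 0 := hc.eventually_ne (sub_ne_zero.mpr hne)
    have h2 : ∀ᶠ y in 𝓝 x, y ∈ Metric.ball x0 (r x0 h0) := Metric.isOpen_ball.mem_nhds hxb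
    have h3 : ∀ᶠ y in 𝓝 x, y ∈ Metric.ball x (r x hx) := Metric.ball_mem_nhds x (hr x hx)
    obtain ⟨y, hy, hyΩ, hyc⟩ := mem_closure_iff_nhds.mp (hcl x hx) _ (h1.and (h2.and h3))
    apply hy.1
    rw [hVu x hx y hy.2.2 hyc, hVu x0 h0 y hy.2.1 hyc, sub_self]
  let v : E → ℝ := fun x => if h : x ∈ Ω then V x h x else 0
  have hv : ∀ (x0 : E) (h0 : x0 ∈ Ω), v =ᶠ[𝓝 x0] V x0 h0 := by
    intro x0 h0
    filter_upwards [Metric.ball_mem_nhds x0 (hr x0 h0)] with x hx
    have hxΩ := hball x0 h0 hx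
    change (if h : x ∈ Ω then V x h x else 0) = _
    rw [dif_pos hxΩ]
    exact hagree x0 h0 x hxΩ hx
  refine ⟨v, ?_, ?_, ?_⟩
  · intro x0 h0
    exact ((hV1 x0 h0).contDiffAt.congr_of_eventuallyEq (hv x0 h0)).contDiffWithinAt
  · intro x hx hcx
    rw [(hv x hx).eq_of_nhds]
    exact hVu x hx x (Metric.mem_ball_self (hr x hx)) hcx
  · intro hf1 x0 h0
    exact ((hV2 x0 h0 hf1).contDiffAt.congr_of_eventuallyEq (hv x0 h0)).contDiffWithinAt

end LEP
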